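import Mathlib
import Pool.Agent.R990.MGS.Main

/-!
# Maximal green sequences in the mutation class of a direct sum

`Ψ(Q)` is the set of isomorphism classes of quivers in the mutation class of `Q` that have a maximal
green sequence. For `Q` the oriented 3-cycle `0 → 2 → 1 → 0` with `6`, `2`, `2` arrows and `Q'` the
quiver with one vertex, `Ψ(Q)` and `Ψ(Q')` are finite and non-empty. For the direct sum of `Q` and
`Q'` with two arrows from each vertex of `Q` to the vertex of `Q'`, `Ψ(Q ⊕ Q')` is empty.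
-/

open Pool.Agent.R990.MGS

namespace Pool.Agent.Results.MP_10e588_co.DirectSumEmpty

theorem result :
    (Psi Q3).Finite ∧ (Psi Q3).Nonempty ∧ (Psi Q1).Finite ∧ (Psi Q1).Nonempty ∧
      Psi (dsum Q3 Q1 L) = ∅ ∧ ∀ A, MutEq (dsum Q3 Q1 L) A → ¬ HasMGS A :=
  ⟨psi_q3_finite, psi_q3_nonempty, psi_q1_finite, psi_q1_nonempty, psi_dsum, fun _ hA hm =>
    (Set.eq_empty_iff_forall_notMem.1 psi_dsum) _ ⟨_, hA, hm, rfl⟩⟩

end Pool.Agent.Results.MP_10e588_co.DirectSumEmpty
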